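import Pool.Agent.W117.GS.Stm
import Pool.Agent.W117.GH.Asm

set_option autoImplicit false

/-! Finite energy of the strings. -/

open scoped ContDiff ComplexConjugate
open MeasureTheory Filter Topology Set

noncomputable section

namespace Pool.Agent.W351.GS.FE

open Pool.Agent.W117.GH Pool.Agent.W117.GS

theorem main (hSD : Pool.Agent.W117.GH.PropSD) (hST : Pool.Agent.W117.GH.PropST)
    (hBO : Pool.Agent.W117.GH.PropBO) (hIT : PropIT) : Pool.Agent.W117.GS.PropFE := by
  intro ε G a s C g v hε ha hs hg hv hP hbC hdec hK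
  obtain ⟨hsd, -⟩ := hSD ε a g v hε hg hv hP
  have hst := (hST ε _ hsd).1
  have hbo := hBO ε _ hsd
  have hb := contDiff_b hg hv
  have hC0 : 0 < C := by
    have h1 := hdec 0
    simp only [norm_zero, add_zero, Real.one_rpow, mul_one] at h1
    exact lt_of_lt_of_le (Real.exp_pos _) h1
  obtain ⟨b, hbdef⟩ : ∃ b : ℂ → ℝ, b = fun z => Complex.normSq (g z) * Real.exp (v z) := ⟨_, rfl⟩
  have hb0 : ∀ z, 0 ≤ b z := by
    intro z; rw [hbdef]
    exact mul_nonneg (Complex.normSq_nonneg _) (Real.exp_pos _).le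
  have hb1 : ∀ z, b z ≤ C := by
    intro z; rw [hbdef]; exact hbC z
  have hphi : ∀ z, Complex.normSq ((fields ε a g v).phi z) = ε ^ 2 * b z := by
    intro z; rw [hbdef]; exact normSq_phi ε a g v z
  have hphi' : (fun w => Complex.normSq ((fields ε a g v).phi w)) = fun w => ε ^ 2 * b w := by
    funext w; exact hphi w
  have hbs : ContDiff ℝ ∞ b := by rw [hbdef]; exact hb
  have hε2 : 0 < ε ^ 2 := by positivity
  -- the decay of the volume density
  have hvol : ∀ z, Real.exp ((fields ε a g v).eta z) ≤ C / ε ^ 2 * (1 + ‖z‖) ^ (-s) := by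
    intro z
    have he : Real.exp ((fields ε a g v).eta z) = Real.exp (a * (v z - b z)) / ε ^ 2 := by
      rw [hbdef]
      show Real.exp (a * (v z - Complex.normSq (g z) * Real.exp (v z)) - 2 * Real.log ε) = _
      rw [Real.exp_sub]
      congr 1
      rw [two_mul, Real.exp_add, Real.exp_log hε]; ring
    rw [he]
    have h1 : Real.exp (a * (v z - b z)) ≤ C * (1 + ‖z‖) ^ (-s) := by
      refine le_trans (Real.exp_le_exp.2 ?_) (hdec z)
      nlinarith [hb0 z]
    calc Real.exp (a * (v z - b z)) / ε ^ 2 ≤ C * (1 + ‖z‖) ^ (-s) / ε ^ 2 :=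
          div_le_div_of_nonneg_right h1 hε2.le
      _ = C / ε ^ 2 * (1 + ‖z‖) ^ (-s) := by ring
  have hIn : Integrable (fun z : ℂ => (1 + ‖z‖) ^ (-s)) := by
    refine integrable_one_add_norm ?_
    rw [Complex.finrank_real_complex]
    exact_mod_cast hs
  have hdom : ∀ (P : ℂ → ℝ) (B : ℝ), Continuous P → (∀ z, |P z| ≤ B) →
      Integrable (fun z => Real.exp ((fields ε a g v).eta z) * P z) := by
    intro P B hPc hPB
    refine Integrable.mono' (hIn.const_mul (C / ε ^ 2 * B)) ?_ ?_
    · exact ((hsd.eta_smooth.continuous.rexp).mul hPc).aestronglyMeasurable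
    · refine Filter.Eventually.of_forall fun z => ?_
      rw [Real.norm_eq_abs, abs_mul, abs_of_pos (Real.exp_pos _)]
      calc Real.exp ((fields ε a g v).eta z) * |P z| ≤
            (C / ε ^ 2 * (1 + ‖z‖) ^ (-s)) * B :=
            mul_le_mul (hvol z) (hPB z) (abs_nonneg _)
              (le_trans (Real.exp_pos _).le (hvol z))
        _ = C / ε ^ 2 * B * (1 + ‖z‖) ^ (-s) := by ring
  have hbc : Continuous b := hbs.continuous
  have hE1 : Integrable (fun z => 1 / 4 * Real.exp ((fields ε a g v).eta z) *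
      (ε ^ 2 - Complex.normSq ((fields ε a g v).phi z)) ^ 2) := by
    have h1 := hdom (fun z => 1 / 4 * (ε ^ 2 - ε ^ 2 * b z) ^ 2) (1 / 4 * (ε ^ 2 * (1 + C)) ^ 2)
      (by fun_prop) (by
        intro z
        rw [abs_of_nonneg (by positivity)]
        refine mul_le_mul_of_nonneg_left ?_ (by norm_num)
        refine sq_le_sq' ?_ ?_
        · nlinarith [hb1 z, hb0 z]
        · nlinarith [hb1 z, hb0 z])
    refine h1.congr (Filter.Eventually.of_forall fun z => ?_)
    simp only [hphi]
    ring
  have hF1 : Integrable (fun z => ε ^ 2 / 2 * (fields ε a g v).F 0 1 z) := by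
    have h1 := hdom (fun z => ε ^ 2 / 4 * (ε ^ 2 - ε ^ 2 * b z))
      (ε ^ 2 / 4 * (ε ^ 2 * (1 + C))) (by fun_prop) (by
        intro z
        rw [abs_mul, abs_of_pos (by positivity : 0 < ε ^ 2 / 4)]
        refine mul_le_mul_of_nonneg_left ?_ (by positivity)
        refine abs_le.2 ⟨?_, ?_⟩
        · nlinarith [hb1 z, hb0 z]
        · nlinarith [hb1 z, hb0 z])
    refine h1.congr (Filter.Eventually.of_forall fun z => ?_)
    simp only [hsd.F_eq z, hphi]
    ring
  have hq : Integrable (fun z => Complex.normSq ((fields ε a g v).D 0 (fields ε a g v).phi z)) := by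
    refine hIT _ (fun z => ε ^ 2 / 2 * (fields ε a g v).F 0 1 z -
      1 / 4 * Real.exp ((fields ε a g v).eta z) *
      (ε ^ 2 - Complex.normSq ((fields ε a g v).phi z)) ^ 2)
      (fun z => 1 / 4 * (ε ^ 2 * b z)) (1 / 4 * (ε ^ 2 * C)) ?_ ?_ (hF1.sub hE1) ?_ ?_ ?_
    · refine Complex.continuous_normSq.comp ?_
      unfold Fields.D
      have c1 : Continuous (pd 0 (fields ε a g v).phi) := (contDiff_pd 0 hsd.phi_smooth).continuous
      have c2 : Continuous ((fields ε a g v).A 0) := (hsd.A_smooth 0).continuous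
      have c3 : Continuous (fields ε a g v).phi := hsd.phi_smooth.continuous
      exact c1.sub ((continuous_const.mul (Complex.continuous_ofReal.comp c2)).mul c3)
    · intro z; exact Complex.normSq_nonneg _
    · have h2 := contDiff_infty.1 ((contDiff_const (c := (1 / 4 : ℝ))).mul
        ((contDiff_const (c := ε ^ 2)).mul hbs)) 2
      exact_mod_cast h2
    · intro z
      rw [abs_of_nonneg (by have := hb0 z; positivity)]
      refine mul_le_mul_of_nonneg_left ?_ (by norm_num)
      exact mul_le_mul_of_nonneg_left (hb1 z) hε2.le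
    · intro z
      have h1 := hst z
      have h2 := hbo z
      rw [h1, hphi'] at h2
      rw [Lap_const_mul (contDiff_const.mul hbs)]
      linarith
  have hH : Integrable (fun z => (fields ε a g v).H ε z * Real.exp ((fields ε a g v).eta z)) := by
    refine (hE1.add hq).congr (Filter.Eventually.of_forall fun z => ?_)
    simp only [Pi.add_apply, hst z]
  refine ⟨hH, ?_⟩
  have : (fun z => (fields ε a g v).K z * Real.exp ((fields ε a g v).eta z)) = fun z =>
      8 * Real.pi * G * ((fields ε a g v).H ε z * Real.exp ((fields ε a g v).eta z)) := by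
    funext z; rw [hK z]; ring
  rw [this]
  exact hH.const_mul _

end Pool.Agent.W351.GS.FE
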